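import Pool.Agent.Helper22.LIL.Defs

/-!
# LIL blocks U1, U2 (sum_big, sum_small)   (helper73)

`sum_big_of`, `sum_small_of`: the dyadic sums, from the counting bound U0 (`count_upper`), which is
taken as a hypothesis here.
-/

open MeasureTheory Filter Set
open scoped Real Topology

namespace Pool.Agent.Helper22.LIL

open Pool.Agent.Helper22.GC Pool.Agent.Helper53.OM

noncomputable section

/-- the statement of U0 (`count_upper`) -/
def U12_Count : Prop := ∃ C : ℝ, 0 < C ∧ ∀ (V : ℝ) (Q : Finset ℕ), 0 < V →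
    (∀ q ∈ Q, 0 < q ∧ Squarefree q ∧ V ^ (-(3 / 4) : ℝ) ≤ rho q) →
    (Q.card : ℝ) ≤ C * V * gV V

lemma U12_kap : 0 ≤ kap - 1 ∧ kap - 1 ≤ 1 := by
  unfold kap
  constructor
  · have : (1 : ℝ) ≤ 2 ^ (1 / 3 : ℝ) := Real.one_le_rpow (by norm_num) (by norm_num)
    linarith
  · have : (2 : ℝ) ^ (1 / 3 : ℝ) ≤ 2 ^ (1 : ℝ) :=
      Real.rpow_le_rpow_of_exponent_le (by norm_num) (by norm_num)
    rw [Real.rpow_one] at this
    linarith

lemma U12_one_le {V : ℝ} (hV : 0 < V) : 1 ≤ 1 + Real.log (1 + V) := by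
  have : 0 ≤ Real.log (1 + V) := Real.log_nonneg (by linarith)
  linarith

lemma U12_gV_mono {V W : ℝ} (hV : 0 < V) (hVW : V ≤ W) : gV V ≤ gV W := by
  unfold gV
  refine Real.rpow_le_rpow (by linarith [U12_one_le hV]) ?_ U12_kap.1
  have := Real.log_le_log (by linarith : (0 : ℝ) < 1 + V) (by linarith : 1 + V ≤ 1 + W)
  linarith

lemma U12_gV_nonneg {V : ℝ} (hV : 0 < V) : 0 ≤ gV V :=
  Real.rpow_nonneg (by linarith [U12_one_le hV]) _

lemma U12_gV_mul {V y : ℝ} (hV : 0 < V) (hy : 1 ≤ y) :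
    gV (V * y) ≤ gV V * (17 * y ^ (1 / 8 : ℝ)) := by
  have h1 : 1 + Real.log (1 + V * y) ≤ (1 + Real.log (1 + V)) * (1 + Real.log (1 + y)) := by
    have h2 : Real.log (1 + V * y) ≤ Real.log (1 + V) + Real.log (1 + y) := by
      rw [← Real.log_mul (by positivity) (by positivity)]
      refine Real.log_le_log (by positivity) ?_
      nlinarith
    have h3 : 0 ≤ Real.log (1 + V) := Real.log_nonneg (by linarith)
    have h4 : 0 ≤ Real.log (1 + y) := Real.log_nonneg (by linarith)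
    nlinarith [mul_nonneg h3 h4]
  have hVy : 0 < V * y := by positivity
  have h5 : gV (V * y) ≤ gV V * (1 + Real.log (1 + y)) ^ (kap - 1) := by
    unfold gV
    rw [← Real.mul_rpow (by linarith [U12_one_le hV]) (by linarith [U12_one_le (V := y) (by linarith)])]
    exact Real.rpow_le_rpow (by linarith [U12_one_le hVy]) h1 U12_kap.1
  have h6 : (1 + Real.log (1 + y)) ^ (kap - 1) ≤ 1 + Real.log (1 + y) := by
    have h7 : (1 + Real.log (1 + y)) ^ (kap - 1) ≤ (1 + Real.log (1 + y)) ^ (1 : ℝ) :=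
      Real.rpow_le_rpow_of_exponent_le (U12_one_le (V := y) (by linarith)) U12_kap.2
    rwa [Real.rpow_one] at h7
  have h8 : 1 + Real.log (1 + y) ≤ 17 * y ^ (1 / 8 : ℝ) := by
    have h9 : Real.log (1 + y) ≤ (1 + y) ^ (1 / 8 : ℝ) / (1 / 8) :=
      Real.log_le_rpow_div (by linarith) (by norm_num)
    have h10 : (1 + y) ^ (1 / 8 : ℝ) ≤ (2 * y) ^ (1 / 8 : ℝ) :=
      Real.rpow_le_rpow (by linarith) (by linarith) (by norm_num)
    have h11 : (2 * y) ^ (1 / 8 : ℝ) = 2 ^ (1 / 8 : ℝ) * y ^ (1 / 8 : ℝ) :=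
      Real.mul_rpow (by norm_num) (by linarith)
    have h12 : (2 : ℝ) ^ (1 / 8 : ℝ) ≤ 2 := by
      have : (2 : ℝ) ^ (1 / 8 : ℝ) ≤ 2 ^ (1 : ℝ) :=
        Real.rpow_le_rpow_of_exponent_le (by norm_num) (by norm_num)
      rwa [Real.rpow_one] at this
    have h13 : 1 ≤ y ^ (1 / 8 : ℝ) := Real.one_le_rpow hy (by norm_num)
    nlinarith
  calc gV (V * y) ≤ gV V * (1 + Real.log (1 + y)) ^ (kap - 1) := h5
    _ ≤ gV V * (17 * y ^ (1 / 8 : ℝ)) :=
      mul_le_mul_of_nonneg_left (h6.trans h8) (U12_gV_nonneg hV)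

lemma U12_fiber {Q : Finset ℕ} (i : ℕ → ℕ) (f : ℕ → ℝ) {A r : ℝ} (hA : 0 ≤ A) (hr : 0 ≤ r)
    (hr1 : r < 1) (h : ∀ n, ∑ q ∈ Q.filter (fun q => i q = n), f q ≤ A * r ^ n) :
    ∑ q ∈ Q, f q ≤ A * (1 - r)⁻¹ := by
  classical
  rw [← Finset.sum_fiberwise_of_maps_to (s := Q) (t := Q.image i) (g := i)
    (fun q hq => Finset.mem_image_of_mem i hq)]
  calc ∑ n ∈ Q.image i, ∑ q ∈ Q.filter (fun q => i q = n), f q
      ≤ ∑ n ∈ Q.image i, A * r ^ n := Finset.sum_le_sum fun n _ => h n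
    _ = A * ∑ n ∈ Q.image i, r ^ n := by rw [Finset.mul_sum]
    _ ≤ A * ∑' n, r ^ n := mul_le_mul_of_nonneg_left
        ((summable_geometric_of_lt_one hr hr1).sum_le_tsum _ fun n _ => pow_nonneg hr n) hA
    _ = A * (1 - r)⁻¹ := by rw [tsum_geometric_of_lt_one hr hr1]

lemma U12_pow (a : ℝ) (n : ℕ) : ((2 : ℝ) ^ n) ^ a = ((2 : ℝ) ^ a) ^ n := by
  rw [← Real.rpow_natCast, ← Real.rpow_natCast, ← Real.rpow_mul (by norm_num),
    ← Real.rpow_mul (by norm_num), mul_comm]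

/-- U1 -/
theorem sum_big_of (hU0 : U12_Count) : ∃ C : ℝ, 0 < C ∧ ∀ (V : ℝ) (Q : Finset ℕ), 0 < V →
    (∀ q ∈ Q, 0 < q ∧ Squarefree q ∧ V ^ (-(3 / 4) : ℝ) ≤ rho q) →
    ∑ q ∈ Q, rho q ≤ C * V ^ (1 / 4 : ℝ) * gV V := by
  obtain ⟨C, hC, hcount⟩ := hU0
  set r : ℝ := (2 : ℝ) ^ (-(1 / 3) : ℝ) with hr
  have hr0 : 0 < r := Real.rpow_pos_of_pos (by norm_num) _
  have hr1 : r < 1 := Real.rpow_lt_one_of_one_lt_of_neg (by norm_num) (by norm_num)
  refine ⟨2 * C * (1 - r)⁻¹, by have : 0 < (1 - r)⁻¹ := inv_pos.2 (by linarith)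
                                positivity, ?_⟩
  intro V Q hV hQ
  have hx : ∀ q, ∃ n : ℕ, q ∈ Q → (2 : ℝ) ^ n ≤ rho q * V ^ (3 / 4 : ℝ) ∧
      rho q * V ^ (3 / 4 : ℝ) < 2 ^ (n + 1) := by
    intro q
    by_cases hq : q ∈ Q
    · have h1 : 1 ≤ rho q * V ^ (3 / 4 : ℝ) := by
        have h2 := (hQ q hq).2.2
        have h3 : V ^ (-(3 / 4) : ℝ) * V ^ (3 / 4 : ℝ) = 1 := by
          rw [← Real.rpow_add hV]; norm_num
        calc (1 : ℝ) = V ^ (-(3 / 4) : ℝ) * V ^ (3 / 4 : ℝ) := h3.symm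
          _ ≤ _ := mul_le_mul_of_nonneg_right h2 (Real.rpow_nonneg hV.le _)
      obtain ⟨n, hn⟩ := exists_nat_pow_near h1 (by norm_num : (1 : ℝ) < 2)
      exact ⟨n, fun _ => hn⟩
    · exact ⟨0, fun h => absurd h hq⟩
  choose i hi using hx
  have hV4 : 0 < V ^ (1 / 4 : ℝ) := Real.rpow_pos_of_pos hV _
  have hg := U12_gV_nonneg hV
  have key := U12_fiber (Q := Q) i (fun q => rho q) (A := 2 * C * (V ^ (1 / 4 : ℝ) * gV V))
    (r := r) (by positivity) hr0.le hr1 (by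
      intro n
      set X : ℝ := (2 : ℝ) ^ n with hX
      have hX1 : 1 ≤ X := one_le_pow₀ (by norm_num)
      have hX0 : 0 < X := by linarith
      set W : ℝ := V * X ^ (-(4 / 3) : ℝ) with hW
      have hW0 : 0 < W := mul_pos hV (Real.rpow_pos_of_pos hX0 _)
      have hWV : W ≤ V := by
        have : X ^ (-(4 / 3) : ℝ) ≤ 1 := Real.rpow_le_one_of_one_le_of_nonpos hX1 (by norm_num)
        calc W = V * X ^ (-(4 / 3) : ℝ) := rfl
          _ ≤ V * 1 := mul_le_mul_of_nonneg_left this hV.le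
          _ = V := mul_one V
      have hW34 : W ^ (-(3 / 4) : ℝ) = V ^ (-(3 / 4) : ℝ) * X := by
        rw [hW, Real.mul_rpow hV.le (Real.rpow_nonneg hX0.le _), ← Real.rpow_mul hX0.le]
        norm_num
      have hcard := hcount W (Q.filter (fun q => i q = n)) hW0 (by
        intro q hq
        obtain ⟨hqQ, hqn⟩ := Finset.mem_filter.1 hq
        refine ⟨(hQ q hqQ).1, (hQ q hqQ).2.1, ?_⟩
        have h1 := (hi q hqQ).1
        rw [hqn] at h1
        rw [hW34]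
        have h3 : V ^ (-(3 / 4) : ℝ) * V ^ (3 / 4 : ℝ) = 1 := by
          rw [← Real.rpow_add hV]; norm_num
        calc V ^ (-(3 / 4) : ℝ) * X ≤ V ^ (-(3 / 4) : ℝ) * (rho q * V ^ (3 / 4 : ℝ)) :=
              mul_le_mul_of_nonneg_left h1 (Real.rpow_nonneg hV.le _)
          _ = rho q * (V ^ (-(3 / 4) : ℝ) * V ^ (3 / 4 : ℝ)) := by ring
          _ = rho q := by rw [h3, mul_one])
      have hterm : ∀ q ∈ Q.filter (fun q => i q = n), rho q ≤ 2 * X * V ^ (-(3 / 4) : ℝ) := by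
        intro q hq
        obtain ⟨hqQ, hqn⟩ := Finset.mem_filter.1 hq
        have h1 := (hi q hqQ).2
        rw [hqn, pow_succ] at h1
        have h3 : V ^ (3 / 4 : ℝ) * V ^ (-(3 / 4) : ℝ) = 1 := by
          rw [← Real.rpow_add hV]; norm_num
        calc rho q = rho q * V ^ (3 / 4 : ℝ) * V ^ (-(3 / 4) : ℝ) := by
              rw [mul_assoc, h3, mul_one]
          _ ≤ (2 ^ n * 2) * V ^ (-(3 / 4) : ℝ) :=
              mul_le_mul_of_nonneg_right h1.le (Real.rpow_nonneg hV.le _)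
          _ = 2 * X * V ^ (-(3 / 4) : ℝ) := by rw [hX]; ring
      calc ∑ q ∈ Q.filter (fun q => i q = n), rho q
          ≤ ((Q.filter (fun q => i q = n)).card : ℝ) * (2 * X * V ^ (-(3 / 4) : ℝ)) := by
            have := Finset.sum_le_card_nsmul _ _ _ hterm
            rwa [nsmul_eq_mul] at this
        _ ≤ (C * W * gV W) * (2 * X * V ^ (-(3 / 4) : ℝ)) := by
            refine mul_le_mul_of_nonneg_right hcard ?_
            have := Real.rpow_nonneg hV.le (-(3 / 4) : ℝ)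
            positivity
        _ ≤ (C * W * gV V) * (2 * X * V ^ (-(3 / 4) : ℝ)) := by
            refine mul_le_mul_of_nonneg_right ?_ ?_
            · exact mul_le_mul_of_nonneg_left (U12_gV_mono hW0 hWV) (by positivity)
            · have := Real.rpow_nonneg hV.le (-(3 / 4) : ℝ)
              positivity
        _ = 2 * C * (V ^ (1 / 4 : ℝ) * gV V) * r ^ n := by
            have e1 : V * V ^ (-(3 / 4) : ℝ) = V ^ (1 / 4 : ℝ) := by
              nth_rewrite 1 [← Real.rpow_one V]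
              rw [← Real.rpow_add hV]; norm_num
            have e2 : X ^ (-(4 / 3) : ℝ) * X = r ^ n := by
              rw [hr, ← U12_pow, ← hX]
              nth_rewrite 2 [← Real.rpow_one X]
              rw [← Real.rpow_add hX0]; norm_num
            rw [hW, ← e1, ← e2]; ring)
  calc ∑ q ∈ Q, rho q ≤ 2 * C * (V ^ (1 / 4 : ℝ) * gV V) * (1 - r)⁻¹ := key
    _ = 2 * C * (1 - r)⁻¹ * V ^ (1 / 4 : ℝ) * gV V := by ring

/-- U2 -/
theorem sum_small_of (hU0 : U12_Count) : ∃ C : ℝ, 0 < C ∧ ∀ (V : ℝ) (Q : Finset ℕ), 0 < V →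
    (∀ q ∈ Q, 0 < q ∧ Squarefree q ∧ rho q < V ^ (-(3 / 4) : ℝ)) →
    ∑ q ∈ Q, rho q ^ 2 ≤ C * V ^ (-(1 / 2) : ℝ) * gV V := by
  classical
  obtain ⟨C, hC, hcount⟩ := hU0
  set r : ℝ := (2 : ℝ) ^ (-(1 / 2) : ℝ) with hr
  have hr0 : 0 < r := Real.rpow_pos_of_pos (by norm_num) _
  have hr1 : r < 1 := Real.rpow_lt_one_of_one_lt_of_neg (by norm_num) (by norm_num)
  refine ⟨68 * C * (1 - r)⁻¹, by have : 0 < (1 - r)⁻¹ := inv_pos.2 (by linarith)
                                 positivity, ?_⟩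
  intro V Q hV hQ
  set Q' : Finset ℕ := Q.filter (fun q => rho q ≠ 0) with hQ'
  have hsum : ∑ q ∈ Q, rho q ^ 2 = ∑ q ∈ Q', rho q ^ 2 := by
    rw [hQ']
    refine (Finset.sum_filter_of_ne ?_).symm
    intro q _ h h0
    apply h
    rw [h0]; norm_num
  have hx : ∀ q, ∃ n : ℕ, q ∈ Q' → (1 / 2 : ℝ) ^ (n + 1) < rho q * V ^ (3 / 4 : ℝ) ∧
      rho q * V ^ (3 / 4 : ℝ) ≤ (1 / 2) ^ n := by
    intro q
    by_cases hq : q ∈ Q'
    · obtain ⟨hqQ, hq0⟩ := Finset.mem_filter.1 hq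
      have h0 : 0 < rho q := lt_of_le_of_ne (rho_nonneg q) (Ne.symm hq0)
      have h1 : rho q * V ^ (3 / 4 : ℝ) ≤ 1 := by
        have h2 := (hQ q hqQ).2.2
        have h3 : V ^ (-(3 / 4) : ℝ) * V ^ (3 / 4 : ℝ) = 1 := by
          rw [← Real.rpow_add hV]; norm_num
        calc rho q * V ^ (3 / 4 : ℝ) ≤ V ^ (-(3 / 4) : ℝ) * V ^ (3 / 4 : ℝ) :=
              mul_le_mul_of_nonneg_right h2.le (Real.rpow_nonneg hV.le _)
          _ = 1 := h3
      obtain ⟨n, hn⟩ := exists_nat_pow_near_of_lt_one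
        (mul_pos h0 (Real.rpow_pos_of_pos hV _)) h1 (by norm_num : (0 : ℝ) < 1 / 2)
        (by norm_num : (1 / 2 : ℝ) < 1)
      exact ⟨n, fun _ => hn⟩
    · exact ⟨0, fun h => absurd h hq⟩
  choose i hi using hx
  have hV2 : 0 < V ^ (-(1 / 2) : ℝ) := Real.rpow_pos_of_pos hV _
  have hg := U12_gV_nonneg hV
  have key := U12_fiber (Q := Q') i (fun q => rho q ^ 2)
    (A := 68 * C * (V ^ (-(1 / 2) : ℝ) * gV V)) (r := r) (by positivity) hr0.le hr1 (by
      intro n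
      set Y : ℝ := (2 : ℝ) ^ (n + 1) with hY
      have hY1 : 1 ≤ Y := one_le_pow₀ (by norm_num)
      have hY0 : 0 < Y := by linarith
      have hY43 : 1 ≤ Y ^ (4 / 3 : ℝ) := Real.one_le_rpow hY1 (by norm_num)
      set W : ℝ := V * Y ^ (4 / 3 : ℝ) with hW
      have hW0 : 0 < W := mul_pos hV (Real.rpow_pos_of_pos hY0 _)
      have hgW : gV W ≤ gV V * (17 * Y ^ (1 / 6 : ℝ)) := by
        have := U12_gV_mul hV hY43
        rw [← Real.rpow_mul hY0.le] at this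
        norm_num at this
        rw [hW]
        norm_num
        exact this
      have hW34 : W ^ (-(3 / 4) : ℝ) = V ^ (-(3 / 4) : ℝ) * Y⁻¹ := by
        rw [hW, Real.mul_rpow hV.le (Real.rpow_nonneg hY0.le _), ← Real.rpow_mul hY0.le]
        norm_num
        left
        exact Real.rpow_neg_one Y
      have hhalf : (1 / 2 : ℝ) ^ (n + 1) = Y⁻¹ := by rw [hY, one_div, inv_pow]
      have hhalf' : (1 / 2 : ℝ) ^ n = 2 * Y⁻¹ := by
        rw [← hhalf, pow_succ]; ring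
      have hcard := hcount W (Q'.filter (fun q => i q = n)) hW0 (by
        intro q hq
        obtain ⟨hqQ', hqn⟩ := Finset.mem_filter.1 hq
        have hqQ := (Finset.mem_filter.1 hqQ').1
        refine ⟨(hQ q hqQ).1, (hQ q hqQ).2.1, ?_⟩
        have h1 := (hi q hqQ').1
        rw [hqn, hhalf] at h1
        rw [hW34]
        have h3 : V ^ (-(3 / 4) : ℝ) * V ^ (3 / 4 : ℝ) = 1 := by
          rw [← Real.rpow_add hV]; norm_num
        calc V ^ (-(3 / 4) : ℝ) * Y⁻¹ ≤ V ^ (-(3 / 4) : ℝ) * (rho q * V ^ (3 / 4 : ℝ)) :=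
              mul_le_mul_of_nonneg_left h1.le (Real.rpow_nonneg hV.le _)
          _ = rho q * (V ^ (-(3 / 4) : ℝ) * V ^ (3 / 4 : ℝ)) := by ring
          _ = rho q := by rw [h3, mul_one])
      have hterm : ∀ q ∈ Q'.filter (fun q => i q = n),
          rho q ^ 2 ≤ (2 * Y⁻¹ * V ^ (-(3 / 4) : ℝ)) ^ 2 := by
        intro q hq
        obtain ⟨hqQ', hqn⟩ := Finset.mem_filter.1 hq
        have h1 := (hi q hqQ').2
        rw [hqn, hhalf'] at h1
        have h3 : V ^ (3 / 4 : ℝ) * V ^ (-(3 / 4) : ℝ) = 1 := by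
          rw [← Real.rpow_add hV]; norm_num
        refine pow_le_pow_left₀ (rho_nonneg q) ?_ 2
        calc rho q = rho q * V ^ (3 / 4 : ℝ) * V ^ (-(3 / 4) : ℝ) := by
              rw [mul_assoc, h3, mul_one]
          _ ≤ (2 * Y⁻¹) * V ^ (-(3 / 4) : ℝ) :=
              mul_le_mul_of_nonneg_right h1 (Real.rpow_nonneg hV.le _)
      calc ∑ q ∈ Q'.filter (fun q => i q = n), rho q ^ 2
          ≤ ((Q'.filter (fun q => i q = n)).card : ℝ) * (2 * Y⁻¹ * V ^ (-(3 / 4) : ℝ)) ^ 2 := by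
            have := Finset.sum_le_card_nsmul _ _ _ hterm
            rwa [nsmul_eq_mul] at this
        _ ≤ (C * W * gV W) * (2 * Y⁻¹ * V ^ (-(3 / 4) : ℝ)) ^ 2 :=
            mul_le_mul_of_nonneg_right hcard (sq_nonneg _)
        _ ≤ (C * W * (gV V * (17 * Y ^ (1 / 6 : ℝ)))) * (2 * Y⁻¹ * V ^ (-(3 / 4) : ℝ)) ^ 2 :=
            mul_le_mul_of_nonneg_right
              (mul_le_mul_of_nonneg_left hgW (by positivity)) (sq_nonneg _)
        _ = 68 * C * (V ^ (-(1 / 2) : ℝ) * gV V) * (Y ^ (-(1 / 2) : ℝ)) := by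
            have e1 : V * (V ^ (-(3 / 4) : ℝ)) ^ 2 = V ^ (-(1 / 2) : ℝ) := by
              rw [← Real.rpow_natCast, ← Real.rpow_mul hV.le]
              nth_rewrite 1 [← Real.rpow_one V]
              rw [← Real.rpow_add hV]; norm_num
            have e2 : Y ^ (4 / 3 : ℝ) * Y ^ (1 / 6 : ℝ) * (Y⁻¹) ^ 2 = Y ^ (-(1 / 2) : ℝ) := by
              rw [← Real.rpow_neg_one Y, ← Real.rpow_natCast, ← Real.rpow_mul hY0.le,
                ← Real.rpow_add hY0, ← Real.rpow_add hY0]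
              norm_num
            rw [hW, ← e1, ← e2]; ring
        _ ≤ 68 * C * (V ^ (-(1 / 2) : ℝ) * gV V) * r ^ n := by
            refine mul_le_mul_of_nonneg_left ?_ (by positivity)
            rw [hY, U12_pow, ← hr, pow_succ]
            have : 0 ≤ r ^ n := pow_nonneg hr0.le n
            nlinarith)
  rw [hsum]
  calc ∑ q ∈ Q', rho q ^ 2 ≤ 68 * C * (V ^ (-(1 / 2) : ℝ) * gV V) * (1 - r)⁻¹ := key
    _ = 68 * C * (1 - r)⁻¹ * V ^ (-(1 / 2) : ℝ) * gV V := by ring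

end

end Pool.Agent.Helper22.LIL
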