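import Pool.Agent.Helper73.LIL.U12
import Pool.Agent.Helper9.LIL.U0F

/-!
# LIL blocks U1, U2 (sum_big, sum_small)   (helper73), final form
-/

open MeasureTheory Filter Set
open scoped Real Topology

namespace Pool.Agent.Helper22.LIL

open Pool.Agent.Helper22.GC Pool.Agent.Helper53.OM

noncomputable section

/-- U1 -/
theorem sum_big : ∃ C : ℝ, 0 < C ∧ ∀ (V : ℝ) (Q : Finset ℕ), 0 < V →
    (∀ q ∈ Q, 0 < q ∧ Squarefree q ∧ V ^ (-(3 / 4) : ℝ) ≤ rho q) →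
    ∑ q ∈ Q, rho q ≤ C * V ^ (1 / 4 : ℝ) * gV V :=
  sum_big_of count_upper

/-- U2 -/
theorem sum_small : ∃ C : ℝ, 0 < C ∧ ∀ (V : ℝ) (Q : Finset ℕ), 0 < V →
    (∀ q ∈ Q, 0 < q ∧ Squarefree q ∧ rho q < V ^ (-(3 / 4) : ℝ)) →
    ∑ q ∈ Q, rho q ^ 2 ≤ C * V ^ (-(1 / 2) : ℝ) * gV V :=
  sum_small_of count_upper

end

end Pool.Agent.Helper22.LIL
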